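import Pool.Agent.H86.IR.Targets1

/-!
# Continuity of the inversion (module MC of the board ir_modules)
-/

set_option autoImplicit false

open Complex Topology Filter
open scoped OnePoint

namespace Pool.Agent.H94.IR

open Pool.Agent.H86.IR

theorem mc : T_MC := by
  intro p
  rw [continuous_iff_continuousAt]
  intro w0
  by_cases h0 : w0 = 0
  · subst h0
    rw [continuousAt_iff_punctured_nhds]
    have h1 : mob p 0 = ∞ := if_pos rfl
    rw [h1]
    have h2 : Tendsto (fun w : ℂ => p + w⁻¹) (𝓝[≠] 0) (cocompact ℂ) := by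
      rw [← Metric.cobounded_eq_cocompact]
      exact (tendsto_const_add_cobounded p).comp tendsto_inv₀_nhdsNE_zero
    have h3 : Tendsto (fun w : ℂ => ((p + w⁻¹ : ℂ) : OnePoint ℂ)) (𝓝[≠] 0) (𝓝 ∞) := by
      have h4 : Tendsto ((↑) : ℂ → OnePoint ℂ) (coclosedCompact ℂ) (𝓝 ∞) :=
        OnePoint.tendsto_coe_infty
      rw [coclosedCompact_eq_cocompact] at h4
      exact h4.comp h2
    refine h3.congr' ?_
    filter_upwards [self_mem_nhdsWithin] with w hw
    exact (if_neg hw).symm
  · have h1 : ContinuousAt (fun w : ℂ => ((p + w⁻¹ : ℂ) : OnePoint ℂ)) w0 :=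
      OnePoint.continuous_coe.continuousAt.comp
        (continuousAt_const.add (continuousAt_inv₀ h0))
    refine h1.congr ?_
    filter_upwards [isOpen_ne.mem_nhds h0] with w hw
    exact (if_neg hw).symm

end Pool.Agent.H94.IR
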