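import Pool.Agent.H86.IR.Targets1

/-!
# Integration of harmonic functions (module AA of the board ir_modules)
-/

set_option autoImplicit false

open Complex Topology Filter InnerProductSpace MeasureTheory Laplacian
open scoped OnePoint ContDiff Manifold

namespace Pool.Agent.H94.IR

open Pool.Agent.H86.IR

/-- the Laplacian of `log |z - b|` -/
theorem laplacian_log (b z : ℂ) (h : z ≠ b) :
    (Δ (fun w : ℂ => Real.log ‖w - b‖)) z = 0 := by
  have h1 : AnalyticAt ℂ (fun w : ℂ => w - b) z := analyticAt_id.sub analyticAt_const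
  have h2 := (h1.harmonicAt_log_norm (sub_ne_zero.2 h)).2
  exact h2.self_of_nhds

theorem aa (hFS : T_FS) (hIP : T_IP) : T_AA := by
  intro D K b w f hD hK hKD hb hw hwlog hf
  obtain ⟨L, hL, hKL, hLD⟩ := exists_compact_between hK hD hKD
  obtain ⟨χ, hχ1, hχ0, -⟩ := exists_contMDiffMap_one_nhds_of_subset_interior (n := (⊤ : ℕ∞))
    (𝓘(ℝ, ℂ)) hK.isClosed hKL
  have hχs : ContDiff ℝ 2 (fun z => χ z) := (contMDiff_iff_contDiff.1 χ.contMDiff).of_le (by
    exact WithTop.coe_le_coe.2 le_top)
  set F : ℂ → ℝ := fun z => χ z * f z with hF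
  have hFd : ContDiff ℝ 2 F := by
    rw [contDiff_iff_contDiffAt]
    intro z
    by_cases hz : z ∈ D
    · exact hχs.contDiffAt.mul (hf z hz).1
    · have h1 : F =ᶠ[𝓝 z] fun _ => 0 := by
        filter_upwards [hL.isClosed.isOpen_compl.mem_nhds (fun h => hz (hLD h))] with y hy
        rw [hF]
        simp only
        rw [hχ0 y hy, zero_mul]
      exact contDiffAt_const.congr_of_eventuallyEq h1
  have hFc : HasCompactSupport F := HasCompactSupport.intro hL fun z hz => by
    rw [hF]
    simp only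
    rw [hχ0 z hz, zero_mul]
  have hnear : ∀ z ∈ K, F =ᶠ[𝓝 z] f := by
    intro z hz
    have h1 := (Filter.eventually_mem_set.2 (mem_of_superset (nhds_le_nhdsSet hz hχ1) fun _ h => h))
    filter_upwards [h1] with y hy
    have h2 : χ y = 1 := hy
    rw [hF]
    simp only
    rw [h2, one_mul]
  have hΔw : ∀ z, z ∉ K → (Δ w) z = 0 := by
    intro z hz
    have h1 : w =ᶠ[𝓝 z] fun y => Real.log ‖y - b‖ := by
      filter_upwards [hK.isClosed.isOpen_compl.mem_nhds hz] with y hy
      exact hwlog y hy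
    rw [(laplacian_congr_nhds h1).self_of_nhds]
    exact laplacian_log b z (fun h => hz (h ▸ hb))
  have hΔF : ∀ z ∈ K, (Δ F) z = 0 := by
    intro z hz
    rw [(laplacian_congr_nhds (hnear z hz)).self_of_nhds]
    exact (hf z (hKD hz)).2.self_of_nhds
  have e1 : ∫ z, f z * (Δ w) z = ∫ z, F z * (Δ w) z := by
    congr 1
    funext z
    by_cases hz : z ∈ K
    · rw [(hnear z hz).self_of_nhds]
    · rw [hΔw z hz, mul_zero, mul_zero]
  have e2 : ∫ z, w z * (Δ F) z = ∫ z, Real.log ‖z - b‖ * (Δ F) z := by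
    congr 1
    funext z
    by_cases hz : z ∈ K
    · rw [hΔF z hz, mul_zero, mul_zero]
    · rw [hwlog z hz]
  rw [e1, hIP F w hFd hFc hw, e2, (hFS F hFd hFc b).2, (hnear b hb).self_of_nhds]

end Pool.Agent.H94.IR
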